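import Pool.Agent.AutoConv.C685.Assemble

/-!
# A lower bound for the sup norm of autoconvolutions on the unit interval

For every unit-interval density `f` (Lebesgue integrable, nonnegative, zero outside `[0, 1]`,
integral one) the essential supremum of `f * f` is at least `0.685`; so `c(∞) ≥ 0.685`.
-/

open MeasureTheory
open scoped ENNReal

namespace Pool.Agent.Results.MP_aa868c_an.LowerBound

open Pool.Agent.AutoConv

/-- `c(∞) ≥ 137 / 200 = 0.685`. -/
theorem result : ENNReal.ofReal (137 / 200) ≤ minNorm ∞ := by
  have h := le_minNorm_of_no_good2 (N := 32) (by norm_num) C685.no_good2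
  have e : (137 / 200 : ℝ) = C685.MM := by norm_num [C685.MM]
  rw [e]
  exact h

end Pool.Agent.Results.MP_aa868c_an.LowerBound
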