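import Pool.Agent.AutoConv.D8192

/-!
# An upper bound for the minimal sup norm of autoconvolutions on the unit interval

An explicit step function with 8192 equal cells shows `c(∞) ≤ 0.751395`.
-/

open MeasureTheory
open scoped ENNReal

namespace Pool.Agent.Results.MP_aa868c_an.UpperBound

open Pool.Agent.AutoConv

/-- `c(∞) ≤ 0.751395`. -/
theorem result : minNorm ∞ ≤ ENNReal.ofReal 0.751395 := by
  have h := D8192.bound
  have e : (0.751395 : ℝ) = 751395 / 1000000 := by norm_num
  rw [e]
  exact h

end Pool.Agent.Results.MP_aa868c_an.UpperBound
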